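import Mathlib

namespace Pool.Agent.Results.MP_59918e_co.NotWeaklyCIS

variable {V : Type}

/-- A maximal stable set. -/
def MaxStable (G : SimpleGraph V) (S : Finset V) : Prop :=
  Maximal (fun T : Finset V => G.IsIndepSet (T : Set V)) S

/-- A maximal clique. -/
def MaxClique (G : SimpleGraph V) (C : Finset V) : Prop :=
  Maximal (fun T : Finset V => G.IsClique (T : Set V)) C

def Equistable (G : SimpleGraph V) : Prop :=
  ∃ φ : V → ℝ, (∀ v, 0 ≤ φ v) ∧ ∀ S : Finset V, MaxStable G S ↔ ∑ v ∈ S, φ v = 1

def WeaklyCIS (G : SimpleGraph V) : Prop :=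
  ∃ 𝒞 𝒮 : Set (Finset V), (∀ C ∈ 𝒞, MaxClique G C) ∧ (∀ S ∈ 𝒮, MaxStable G S) ∧
    (∀ u v, G.Adj u v → ∃ C ∈ 𝒞, u ∈ C ∧ v ∈ C) ∧
    (∀ u v, u ≠ v → ¬ G.Adj u v → ∃ S ∈ 𝒮, u ∈ S ∧ v ∈ S) ∧
    ∀ C ∈ 𝒞, ∀ S ∈ 𝒮, ∃ x, x ∈ C ∧ x ∈ S

def ends : Fin 14 → ℕ × ℕ :=
  ![(0, 3), (1, 4), (0, 5), (1, 5), (0, 6), (2, 6), (4, 6), (1, 7), (2, 7), (3, 7), (2, 8),
    (3, 8), (4, 8), (5, 8)]

def wt : Fin 14 → ℕ := ![53, 75, 72, 52, 43, 65, 60, 41, 58, 69, 45, 46, 33, 44]

def inc (v : ℕ) (e : Fin 14) : Bool := v == (ends e).1 || v == (ends e).2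

def adjB (e f : Fin 14) : Bool := !(inc (ends e).1 f) && !(inc (ends e).2 f)

lemma adjB_symm : ∀ e f, adjB e f = adjB f e := by decide +kernel
lemma adjB_irr : ∀ e, adjB e e = false := by decide +kernel

def H : SimpleGraph (Fin 14) where
  Adj e f := adjB e f = true
  symm := ⟨fun u v h => by rw [adjB_symm]; exact h⟩
  loopless := ⟨fun u h => by simp [adjB_irr] at h⟩

def star (v : Fin 9) : Finset (Fin 14) := Finset.univ.filter fun e => inc v.val e = true

lemma star_ind : ∀ v : Fin 9, ∀ e f, inc v.val e = true → inc v.val f = true → adjB e f = false := by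
  decide +kernel
lemma star_max : ∀ v : Fin 9, ∀ e, inc v.val e = false → ∃ f, inc v.val f = true ∧ adjB e f = true := by
  decide +kernel
lemma star_wt : ∀ v : Fin 9, ∑ e ∈ star v, wt e = 168 := by decide +kernel
lemma two_edges : ∀ e f : Fin 14, e ≠ f → adjB e f = false → ∃ v : Fin 9,
    ∀ g, adjB e g = false → adjB f g = false → inc v.val g = true := by decide +kernel
lemma one_edge : ∀ e : Fin 14, ∃ v : Fin 9, inc v.val e = true := by decide +kernel
lemma at_vertex : ∀ v : Fin 9, ∃ e f : Fin 14, e ≠ f ∧ adjB e f = false ∧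
    ∀ g, adjB e g = false → adjB f g = false → inc v.val g = true := by decide +kernel

def sums : List (Fin 14) → ℕ → List (Fin 14) → Bool
  | [], s, c => s != 168 || (List.finRange 9).any fun v => (List.finRange 14).all fun e =>
      inc v.val e == c.contains e
  | e :: l, s, c => 168 < s || (sums l s c && sums l (s + wt e) (e :: c))

lemma sums_sound (S : Finset (Fin 14)) (hS : ∑ e ∈ S, wt e = 168) :
    ∀ (l : List (Fin 14)) (s : ℕ) (c : List (Fin 14)), l.Nodup → sums l s c = true →
    s + ∑ e ∈ S.filter (· ∈ l), wt e = 168 → (∀ e, e ∈ S ↔ e ∈ c ∨ (e ∈ S ∧ e ∈ l)) →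
    ∃ v, S = star v := by
  intro l
  induction l with
  | nil =>
    intro s c _ h hs hc
    simp only [List.not_mem_nil, Finset.filter_false, Finset.sum_empty, add_zero] at hs
    simp only [sums, hs, bne_self_eq_false, Bool.false_or, List.any_eq_true, List.all_eq_true,
      beq_iff_eq] at h
    obtain ⟨v, _, hv⟩ := h
    refine ⟨v, ?_⟩
    ext e
    rw [hc e]
    simp [star, hv e (List.mem_finRange e)]
  | cons e l ih =>
    intro s c hn h hs hc
    rw [List.nodup_cons] at hn
    simp only [sums, Bool.or_eq_true, decide_eq_true_eq, Bool.and_eq_true] at h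
    rcases h with h | ⟨h1, h2⟩
    · omega
    by_cases he : e ∈ S
    · apply ih _ _ hn.2 h2
      · have : S.filter (· ∈ e :: l) = insert e (S.filter (· ∈ l)) := by
          ext x; simp only [Finset.mem_filter, List.mem_cons, Finset.mem_insert]
          constructor
          · rintro ⟨h1, h2 | h2⟩
            · exact Or.inl h2
            · exact Or.inr ⟨h1, h2⟩
          · rintro (rfl | ⟨h1, h2⟩)
            · exact ⟨he, Or.inl rfl⟩
            · exact ⟨h1, Or.inr h2⟩
        rw [this, Finset.sum_insert (by simp [hn.1])] at hs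
        omega
      · intro x
        have := hc x
        simp only [List.mem_cons] at this ⊢
        constructor
        · intro hx
          rcases this.1 hx with h | ⟨_, h | h⟩
          · exact Or.inl (Or.inr h)
          · exact Or.inl (Or.inl h)
          · exact Or.inr ⟨hx, h⟩
        · rintro ((rfl | h) | h)
          · exact he
          · exact this.2 (Or.inl h)
          · exact h.1
    · apply ih _ _ hn.2 h1
      · have : S.filter (· ∈ e :: l) = S.filter (· ∈ l) := by
          ext x; simp only [Finset.mem_filter, List.mem_cons]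
          constructor
          · rintro ⟨h1, rfl | h2⟩
            · exact absurd h1 he
            · exact ⟨h1, h2⟩
          · rintro ⟨h1, h2⟩
            exact ⟨h1, Or.inr h2⟩
        rw [this] at hs
        exact hs
      · intro x
        have := hc x
        simp only [List.mem_cons] at this ⊢
        constructor
        · intro hx
          rcases this.1 hx with h | ⟨_, rfl | h⟩
          · exact Or.inl h
          · exact absurd hx he
          · exact Or.inr ⟨hx, h⟩
        · rintro (h | h)
          · exact this.2 (Or.inl h)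
          · exact h.1

set_option maxRecDepth 100000 in
lemma sums_ok : sums (List.finRange 14) 0 [] = true := by decide +kernel

lemma wt_star (S : Finset (Fin 14)) (hS : ∑ e ∈ S, wt e = 168) : ∃ v, S = star v := by
  apply sums_sound S hS _ 0 [] (List.nodup_finRange 14) sums_ok
  · simpa using hS
  · simp

lemma star_indep (v : Fin 9) : H.IsIndepSet ((star v : Finset (Fin 14)) : Set (Fin 14)) := by
  intro e he f hf _
  simp only [star, Finset.coe_filter, Finset.mem_univ, true_and, Set.mem_ofPred_eq] at he hf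
  have := star_ind v e f he hf
  simp [H, this]

lemma nadj {S : Finset (Fin 14)} (hS : H.IsIndepSet (S : Set (Fin 14))) {e g : Fin 14}
    (he : e ∈ S) (hg : g ∈ S) : adjB e g = false := by
  by_cases h : e = g
  · subst h; exact adjB_irr e
  · simpa [H] using hS (Finset.mem_coe.2 he) (Finset.mem_coe.2 hg) h

lemma star_maxStable (v : Fin 9) : MaxStable H (star v) := by
  refine ⟨star_indep v, fun T hT hsub e he => ?_⟩
  by_contra hne
  have h1 : inc v.val e = false := by simpa [star] using hne
  obtain ⟨f, hf, hadj⟩ := star_max v e h1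
  have hfT : f ∈ T := hsub (by simpa [star] using hf)
  rw [nadj hT he hfT] at hadj
  exact absurd hadj (by simp)

lemma indep_sub (S : Finset (Fin 14)) (hS : H.IsIndepSet (S : Set (Fin 14))) :
    ∃ v, S ⊆ star v := by
  by_cases h : ∃ e ∈ S, ∃ f ∈ S, e ≠ f
  · obtain ⟨e, he, f, hf, hne⟩ := h
    obtain ⟨v, hv⟩ := two_edges e f hne (nadj hS he hf)
    exact ⟨v, fun g hg => by simpa [star] using hv g (nadj hS he hg) (nadj hS hf hg)⟩
  · push Not at h
    rcases S.eq_empty_or_nonempty with rfl | ⟨e, he⟩
    · exact ⟨0, by simp⟩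
    · obtain ⟨v, hv⟩ := one_edge e
      exact ⟨v, fun g hg => by rw [h g hg e he]; simpa [star] using hv⟩

lemma H_equi : Equistable H := by
  refine ⟨fun e => (wt e : ℝ) / 168, fun e => by positivity, fun S => ?_⟩
  have key : ∑ e ∈ S, (wt e : ℝ) / 168 = 1 ↔ ∑ e ∈ S, wt e = 168 := by
    rw [← Finset.sum_div, div_eq_one_iff_eq (by norm_num)]
    exact_mod_cast Iff.rfl
  rw [key]
  constructor
  · intro h
    obtain ⟨v, hv⟩ := indep_sub S h.prop
    have : S = star v := Finset.Subset.antisymm hv (h.le_of_ge (star_indep v) hv)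
    rw [this, star_wt]
  · intro h
    obtain ⟨v, rfl⟩ := wt_star S h
    exact star_maxStable v

lemma inc_card : ∀ e : Fin 14, (Finset.univ.filter fun v : Fin 9 => inc v.val e = true).card = 2 := by
  decide +kernel

lemma H_not : ¬ WeaklyCIS H := by
  rintro ⟨𝒞, 𝒮, hC, hS, hcov, hncov, hx⟩
  obtain ⟨C, hCm, -, -⟩ := hcov 0 1 (by show adjB 0 1 = true; decide +kernel)
  have hcover : ∀ v : Fin 9, ∃ g ∈ C, inc v.val g = true := by
    intro v
    obtain ⟨e, f, hne, hef, hv⟩ := at_vertex v
    obtain ⟨S, hSm, he, hf⟩ := hncov e f hne (by simp [H, hef])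
    obtain ⟨g, hgC, hgS⟩ := hx C hCm S hSm
    exact ⟨g, hgC, hv g (nadj (hS S hSm).prop he hgS) (nadj (hS S hSm).prop hf hgS)⟩
  have hpart : (Finset.univ : Finset (Fin 9)) =
      C.biUnion fun e => Finset.univ.filter fun v : Fin 9 => inc v.val e = true := by
    ext v
    simpa using hcover v
  have hcard := congrArg Finset.card hpart
  rw [Finset.card_biUnion] at hcard
  · simp only [inc_card, Finset.card_univ, Fintype.card_fin, Finset.sum_const, smul_eq_mul] at hcard
    omega
  · intro e he f hf hne
    have hadj : adjB e f = true := (hC C hCm).prop he hf hne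
    rw [Function.onFun, Finset.disjoint_left]
    intro v h1 h2
    simp only [Finset.mem_filter, Finset.mem_univ, true_and] at h1 h2
    rw [star_ind v e f h1 h2] at hadj
    exact absurd hadj (by simp)

theorem result : ¬ ∀ (V : Type) [Fintype V] (G : SimpleGraph V), Equistable G → WeaklyCIS G :=
  fun h => H_not (h (Fin 14) H H_equi)

end Pool.Agent.Results.MP_59918e_co.NotWeaklyCIS
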